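import Pool.Agent.TH37.RF.Ids

set_option autoImplicit false

namespace Pool.Agent.TH142.RF

open Pool.Agent.TH37.RF

/-- words as a monoid algebra -/
noncomputable def ev {F C : Type} [Field F] [Ring C] [Algebra F C] (x y z : C) :
    MonoidAlgebra F (FreeMonoid (Fin 3)) →ₐ[F] C :=
  MonoidAlgebra.lift F _ _ (FreeMonoid.lift ![x, y, z])

theorem ev_eq {F C : Type} [Field F] [Ring C] [Algebra F C] (x y z : C)
    (g : MonoidAlgebra F (FreeMonoid (Fin 3))) : ev x y z g = ev3 g.coeff x y z := by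
  unfold ev ev3
  rw [MonoidAlgebra.lift_apply]
  refine Finsupp.sum_congr fun w _ => ?_
  rw [FreeMonoid.lift_apply]
  rfl

/-- substituted elements -/
def sb {C : Type} [Ring C] (i j : ℕ) (n : ℕ → ℕ) (x y z : C) (l : ℕ) : C :=
  z ^ (n l) + (if l = i then x else 0) + (if l = j then y else 0)

/-- value of `f` -/
noncomputable def GG {F C : Type} [Field F] [Ring C] [Algebra F C] (f : List ℕ →₀ F) (i j : ℕ)
    (n : ℕ → ℕ) (x y z : C) : C :=
  f.sum fun w r => if w = [] then 0 else r • (w.map (sb i j n x y z)).prod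

/-- the identity -/
noncomputable def gg {F C : Type} [Field F] [Ring C] [Algebra F C] (f : List ℕ →₀ F) (i j : ℕ)
    (n : ℕ → ℕ) (x y z : C) : C :=
  (GG f i j n (x * z) y z - GG f i j n 0 y z - GG f i j n (x * z) 0 z + GG f i j n 0 0 z)
    - (GG f i j n x y z - GG f i j n 0 y z - GG f i j n x 0 z + GG f i j n 0 0 z) * z

section
variable {F C C' : Type} [Field F] [Ring C] [Algebra F C] [Ring C'] [Algebra F C']

theorem map_sb (φ : C →ₐ[F] C') (i j : ℕ) (n : ℕ → ℕ) (x y z : C) (l : ℕ) :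
    φ (sb i j n x y z l) = sb i j n (φ x) (φ y) (φ z) l := by
  unfold sb
  rw [map_add, map_add, map_pow]
  split_ifs <;> simp

theorem map_GG (φ : C →ₐ[F] C') (f : List ℕ →₀ F) (i j : ℕ) (n : ℕ → ℕ) (x y z : C) :
    φ (GG f i j n x y z) = GG f i j n (φ x) (φ y) (φ z) := by
  unfold GG
  rw [Finsupp.sum, Finsupp.sum, map_sum]
  refine Finset.sum_congr rfl fun w _ => ?_
  split_ifs with h
  · simp
  · rw [map_smul, map_list_prod, List.map_map]
    congr 2
    refine List.map_congr_left fun l _ => ?_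
    exact map_sb φ i j n x y z l

theorem map_gg (φ : C →ₐ[F] C') (f : List ℕ →₀ F) (i j : ℕ) (n : ℕ → ℕ) (x y z : C) :
    φ (gg f i j n x y z) = gg f i j n (φ x) (φ y) (φ z) := by
  unfold gg
  simp only [map_sub, map_add, map_mul, map_GG, map_zero]

/-- The coefficients of the identity. -/
noncomputable def cc (F : Type) [Field F] (f : List ℕ →₀ F) (i j : ℕ) (n : ℕ → ℕ) :
    List (Fin 3) →₀ F :=
  (gg f i j n (MonoidAlgebra.of F (FreeMonoid (Fin 3)) (FreeMonoid.of 0))
    (MonoidAlgebra.of F (FreeMonoid (Fin 3)) (FreeMonoid.of 1))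
    (MonoidAlgebra.of F (FreeMonoid (Fin 3)) (FreeMonoid.of 2))).coeff

theorem ev3_cc (f : List ℕ →₀ F) (i j : ℕ) (n : ℕ → ℕ) (x y z : C) :
    ev3 (cc F f i j n) x y z = gg f i j n x y z := by
  unfold cc
  rw [← ev_eq, map_gg]
  congr 1
  all_goals
    unfold ev
    simp [MonoidAlgebra.lift_single]

theorem GG_mem (f : List ℕ →₀ F) (i j : ℕ) (n : ℕ → ℕ) (hn : ∀ l, 1 ≤ n l)
    (B : TwoSidedIdeal C)
    (h : ∀ a : ℕ → C, (∀ i, a i ∈ B) →
        (f.sum fun w r => if w = [] then 0 else r • (w.map a).prod) = 0)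
    (x y z : C) (hx : x ∈ B) (hy : y ∈ B) (hz : z ∈ B) : GG f i j n x y z = 0 := by
  apply h
  intro l
  unfold sb
  have h1 : z ^ n l ∈ B := by
    obtain ⟨k, hk⟩ := Nat.exists_eq_add_of_le (hn l)
    rw [hk, add_comm, pow_succ]
    exact B.mul_mem_left _ _ hz
  refine B.add_mem (B.add_mem h1 ?_) ?_
  · split_ifs
    · exact hx
    · exact B.zero_mem
  · split_ifs
    · exact hy
    · exact B.zero_mem

theorem gg_mem (f : List ℕ →₀ F) (i j : ℕ) (n : ℕ → ℕ) (hn : ∀ l, 1 ≤ n l)
    (B : TwoSidedIdeal C)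
    (h : ∀ a : ℕ → C, (∀ i, a i ∈ B) →
        (f.sum fun w r => if w = [] then 0 else r • (w.map a).prod) = 0)
    (x y z : C) (hx : x ∈ B) (hy : y ∈ B) (hz : z ∈ B) : gg f i j n x y z = 0 := by
  have h0 : (0 : C) ∈ B := B.zero_mem
  have hxz : x * z ∈ B := B.mul_mem_left _ _ hz
  unfold gg
  rw [GG_mem f i j n hn B h (x * z) y z hxz hy hz, GG_mem f i j n hn B h 0 y z h0 hy hz,
    GG_mem f i j n hn B h (x * z) 0 z hxz h0 hz, GG_mem f i j n hn B h 0 0 z h0 h0 hz,
    GG_mem f i j n hn B h x y z hx hy hz, GG_mem f i j n hn B h x 0 z hx h0 hz]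
  simp

end

/-! ### every word contains both -/

theorem word0 {F : Type} [Field F] (w : List (Fin 3)) (k : Fin 3) (v : Fin 3 → MonoidAlgebra F (FreeMonoid (Fin 3)))
    (hk : v k = 0) (hv : ∀ m, m ≠ k → v m = MonoidAlgebra.of F (FreeMonoid (Fin 3))
      (FreeMonoid.of m)) :
    (w.map v).prod = if k ∈ w then 0 else MonoidAlgebra.single (FreeMonoid.ofList w) 1 := by
  induction w with
  | nil => simp [MonoidAlgebra.one_def]
  | cons a w ih =>
    rw [List.map_cons, List.prod_cons, ih]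
    by_cases ha : a = k
    · subst ha
      simp [hk]
    · rw [hv a ha]
      by_cases hw : k ∈ w
      · simp [hw]
      · simp only [hw, if_false, List.mem_cons, or_false]
        rw [if_neg (fun h => ha h.symm)]
        simp [MonoidAlgebra.of_apply, MonoidAlgebra.single_mul_single]

theorem mem_of_gg_zero {F : Type} [Field F] (c : List (Fin 3) →₀ F) (k : Fin 3)
    (v : Fin 3 → MonoidAlgebra F (FreeMonoid (Fin 3)))
    (hk : v k = 0) (hv : ∀ m, m ≠ k → v m = MonoidAlgebra.of F (FreeMonoid (Fin 3))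
      (FreeMonoid.of m))
    (h0 : (c.sum fun w a => a • (w.map v).prod) = 0) (w : List (Fin 3)) (hw : w ∈ c.support) :
    k ∈ w := by
  classical
  by_contra hkw
  have h1 : (c.sum fun w a => a • (w.map v).prod).coeff (FreeMonoid.ofList w) = c w := by
    rw [Finsupp.sum]
    rw [MonoidAlgebra.coeff_sum, Finsupp.finsetSum_apply]
    rw [Finset.sum_eq_single w]
    · rw [word0 w k v hk hv, if_neg hkw]
      simp
    · intro b _ hbw
      rw [word0 b k v hk hv]
      split_ifs
      · simp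
      · have : FreeMonoid.ofList b ≠ FreeMonoid.ofList w := fun h => hbw h
        simp [MonoidAlgebra.coeff_single, this]
    · intro h
      exact absurd hw h
  rw [h0] at h1
  exact (Finsupp.mem_support_iff.mp hw) (by rw [← h1]; simp)

theorem cc_two {F : Type} [Field F] (f : List ℕ →₀ F) (i j : ℕ) (n : ℕ → ℕ) :
    ∀ w ∈ (cc F f i j n).support, (0 : Fin 3) ∈ w ∧ (1 : Fin 3) ∈ w := by
  intro w hw
  constructor
  · refine mem_of_gg_zero (cc F f i j n) 0 ![0, MonoidAlgebra.of F (FreeMonoid (Fin 3))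
      (FreeMonoid.of 1), MonoidAlgebra.of F (FreeMonoid (Fin 3)) (FreeMonoid.of 2)] rfl ?_ ?_ w hw
    · intro m hm
      fin_cases m
      · exact absurd rfl hm
      · rfl
      · rfl
    · have := ev3_cc f i j n (0 : MonoidAlgebra F (FreeMonoid (Fin 3)))
        (MonoidAlgebra.of F (FreeMonoid (Fin 3)) (FreeMonoid.of 1))
        (MonoidAlgebra.of F (FreeMonoid (Fin 3)) (FreeMonoid.of 2))
      unfold ev3 at this
      rw [this]
      unfold gg
      simp
  · refine mem_of_gg_zero (cc F f i j n) 1 ![MonoidAlgebra.of F (FreeMonoid (Fin 3))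
      (FreeMonoid.of 0), 0, MonoidAlgebra.of F (FreeMonoid (Fin 3)) (FreeMonoid.of 2)]
        rfl ?_ ?_ w hw
    · intro m hm
      fin_cases m
      · rfl
      · exact absurd rfl hm
      · rfl
    · have := ev3_cc f i j n (MonoidAlgebra.of F (FreeMonoid (Fin 3)) (FreeMonoid.of 0)) 0
        (MonoidAlgebra.of F (FreeMonoid (Fin 3)) (FreeMonoid.of 2))
      unfold ev3 at this
      rw [this]
      unfold gg
      simp

end Pool.Agent.TH142.RF
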