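import Pool.Agent.TH142.RF.GB

set_option autoImplicit false

namespace Pool.Agent.TH142.RF

open Pool.Agent.TH37.RF

section
variable {R : Type} [CommRing R]

theorem prodB (t : R) (w : List (Fin 3)) :
    ((w.map ![my, mx, mz 0 t 0]).prod 2 2 = 0 ∨ w = []) ∧
    ((w.map ![my, mx, mz 0 t 0]).prod 1 2 = 0 ∨ ∃ n, w = List.replicate n 2 ++ [1]) ∧
    ((w.map ![my, mx, mz 0 t 0]).prod 0 2 = 0 ∨ ∃ n, w = 0 :: (List.replicate n 2 ++ [1])) := by
  induction w with
  | nil => simp
  | cons a w ih =>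
    obtain ⟨h1, h2, h3⟩ := ih
    rw [List.map_cons, List.prod_cons]
    set W := (w.map ![my, mx, mz 0 t 0]).prod with hW
    fin_cases a
    · have e2 : ((my : Matrix (Fin 3) (Fin 3) R) * W) 2 2 = 0 := by
        rw [my]; simp [Matrix.mul_apply, Fin.sum_univ_succ]
      have e3 : ((my : Matrix (Fin 3) (Fin 3) R) * W) 1 2 = 0 := by
        rw [my]; simp [Matrix.mul_apply, Fin.sum_univ_succ]
      have e4 : ((my : Matrix (Fin 3) (Fin 3) R) * W) 0 2 = W 1 2 := by
        rw [my]; simp [Matrix.mul_apply, Fin.sum_univ_succ]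
      refine ⟨Or.inl e2, Or.inl e3, ?_⟩
      change ((my : Matrix (Fin 3) (Fin 3) R) * W) 0 2 = 0 ∨ ∃ n, (0 : Fin 3) :: w = _
      rw [e4]
      rcases h2 with h2 | ⟨n, h2⟩
      · exact Or.inl h2
      · exact Or.inr ⟨n, by rw [h2]⟩
    · have e2 : ((mx : Matrix (Fin 3) (Fin 3) R) * W) 2 2 = 0 := by
        rw [mx]; simp [Matrix.mul_apply, Fin.sum_univ_succ]
      have e3 : ((mx : Matrix (Fin 3) (Fin 3) R) * W) 1 2 = W 2 2 := by
        rw [mx]; simp [Matrix.mul_apply, Fin.sum_univ_succ]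
      have e4 : ((mx : Matrix (Fin 3) (Fin 3) R) * W) 0 2 = 0 := by
        rw [mx]; simp [Matrix.mul_apply, Fin.sum_univ_succ]
      refine ⟨Or.inl e2, ?_, Or.inl e4⟩
      change ((mx : Matrix (Fin 3) (Fin 3) R) * W) 1 2 = 0 ∨ ∃ n, (1 : Fin 3) :: w = _
      rw [e3]
      rcases h1 with h1 | h1
      · exact Or.inl h1
      · exact Or.inr ⟨0, by rw [h1]; rfl⟩
    · have e2 : (mz 0 t 0 * W) 2 2 = 0 := by
        rw [mz]; simp [Matrix.mul_apply, Fin.sum_univ_succ]
      have e3 : (mz 0 t 0 * W) 1 2 = t * W 1 2 := by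
        rw [mz]; simp [Matrix.mul_apply, Fin.sum_univ_succ]
      have e4 : (mz 0 t 0 * W) 0 2 = 0 := by
        rw [mz]; simp [Matrix.mul_apply, Fin.sum_univ_succ]
      refine ⟨Or.inl e2, ?_, Or.inl e4⟩
      change (mz 0 t 0 * W) 1 2 = 0 ∨ ∃ n, (2 : Fin 3) :: w = _
      rw [e3]
      rcases h2 with h2 | ⟨n, h2⟩
      · left; rw [h2, mul_zero]
      · right
        exact ⟨n + 1, by rw [h2, List.replicate_succ]; rfl⟩

theorem piv_of {F : Type} [Field F] [Algebra F R] (t : R) (c : List (Fin 3) →₀ F)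
    (h : ev3 c (my : Matrix (Fin 3) (Fin 3) R) mx (mz 0 t 0) 0 2 ≠ 0) :
    ∃ n, c (0 :: (List.replicate n 2 ++ [1])) ≠ 0 := by
  by_contra hcon
  push Not at hcon
  apply h
  unfold ev3
  rw [Finsupp.sum, Matrix.sum_apply]
  refine Finset.sum_eq_zero fun w _ => ?_
  rw [Matrix.smul_apply]
  rcases (prodB t w).2.2 with h3 | ⟨n, h3⟩
  · rw [h3, smul_zero]
  · rw [h3, hcon n, zero_smul]

/-- matrices with one step -/
def TM (α u β : R) : Matrix (Fin 3) (Fin 3) R := !![0, α, 0; 0, u, β; 0, 0, 0]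

theorem TM_mul02 (α u β : R) (W : Matrix (Fin 3) (Fin 3) R) :
    (TM α u β * W) 0 2 = α * W 1 2 := by
  rw [TM]; simp [Matrix.mul_apply, Fin.sum_univ_succ]

theorem TM_mul12 (α u β : R) (W : Matrix (Fin 3) (Fin 3) R) :
    (TM α u β * W) 1 2 = u * W 1 2 + β * W 2 2 := by
  rw [TM]; simp [Matrix.mul_apply, Fin.sum_univ_succ]

theorem TM_mul22 (α u β : R) (W : Matrix (Fin 3) (Fin 3) R) :
    (TM α u β * W) 2 2 = 0 := by
  rw [TM]; simp [Matrix.mul_apply, Fin.sum_univ_succ]

/-- sum of the middle exponents -/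
def mid (n : ℕ → ℕ) (w : List ℕ) : ℕ := (w.tail.dropLast.map n).sum

theorem TM_prod22 (α β : R) (i j : ℕ) (n : ℕ → ℕ) (t : R) (w : List ℕ) :
    (w.map fun l => TM (if l = i then α else 0) (t ^ n l) (if l = j then β else 0)).prod 2 2 =
      if w = [] then 1 else 0 := by
  cases w with
  | nil => simp
  | cons l w => rw [List.map_cons, List.prod_cons, TM_mul22]; simp

theorem TM_prod12 (α β : R) (i j : ℕ) (n : ℕ → ℕ) (t : R) (w : List ℕ) :
    (w.map fun l => TM (if l = i then α else 0) (t ^ n l) (if l = j then β else 0)).prod 1 2 =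
      if w.getLast? = some j then t ^ (w.dropLast.map n).sum * β else 0 := by
  induction w with
  | nil => simp
  | cons l w ih =>
    rw [List.map_cons, List.prod_cons, TM_mul12, TM_prod22, ih]
    cases w with
    | nil =>
      by_cases h : l = j
      · subst h
        simp
      · simp [h]
    | cons m w =>
      simp only [reduceCtorEq, if_false, mul_zero, add_zero, List.getLast?_cons_cons,
        List.dropLast_cons_cons, List.map_cons, List.sum_cons, mul_ite]
      split_ifs
      · ring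
      · rfl

theorem TM_prod02 (α β : R) (i j : ℕ) (n : ℕ → ℕ) (t : R) (w : List ℕ) :
    (w.map fun l => TM (if l = i then α else 0) (t ^ n l) (if l = j then β else 0)).prod 0 2 =
      if w.head? = some i ∧ w.tail.getLast? = some j then α * t ^ mid n w * β else 0 := by
  cases w with
  | nil => simp
  | cons l w =>
    rw [List.map_cons, List.prod_cons, TM_mul02, TM_prod12]
    simp only [List.head?_cons, Option.some.injEq, List.tail_cons, mid]
    by_cases h1 : l = i
    · by_cases h2 : w.getLast? = some j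
      · simp [h1, h2, mul_assoc]
      · simp [h1, h2]
    · simp [h1]

theorem GG_val {F : Type} [Field F] [Algebra F R] (α β t : R) (f : List ℕ →₀ F) (i j : ℕ)
    (n : ℕ → ℕ) (hn : ∀ l, 1 ≤ n l) :
    GG f i j n (α • (my : Matrix (Fin 3) (Fin 3) R)) (β • mx) (mz 0 t 0) 0 2 =
      α * β * f.sum fun w r => r • (if w.head? = some i ∧ w.tail.getLast? = some j then
        t ^ mid n w else 0) := by
  unfold GG
  rw [Finsupp.sum, Finsupp.sum, Matrix.sum_apply, Finset.mul_sum]
  refine Finset.sum_congr rfl fun w _ => ?_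
  by_cases hw : w = []
  · subst hw
    simp
  · rw [if_neg hw, Matrix.smul_apply]
    have e1 : ∀ l, sb i j n (α • (my : Matrix (Fin 3) (Fin 3) R)) (β • mx) (mz 0 t 0) l =
        TM (if l = i then α else 0) (t ^ n l) (if l = j then β else 0) := by
      intro l
      have e2 : (mz 0 t 0 : Matrix (Fin 3) (Fin 3) R) ^ n l = TM 0 (t ^ n l) 0 := by
        obtain ⟨k, hk⟩ := Nat.exists_eq_add_of_le (hn l)
        rw [hk]
        clear hk
        induction k with
        | zero =>
          rw [mz, TM]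
          simp
        | succ k ih =>
          rw [← add_assoc, pow_succ, ih, mz, TM, TM]
          ext a b
          fin_cases a <;> fin_cases b <;> simp [Matrix.mul_apply, Fin.sum_univ_succ, pow_succ]
      unfold sb
      rw [e2, TM, TM, mx, my]
      ext a b
      split_ifs <;> fin_cases a <;> fin_cases b <;> simp
    rw [List.map_congr_left (fun l _ => e1 l), TM_prod02]
    split_ifs
    · rw [mul_smul_comm]
      congr 1
      ring
    · simp

theorem gg_val {F : Type} [Field F] [Algebra F R] (t : R) (f : List ℕ →₀ F) (i j : ℕ)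
    (n : ℕ → ℕ) (hn : ∀ l, 1 ≤ n l) :
    gg f i j n (my : Matrix (Fin 3) (Fin 3) R) mx (mz 0 t 0) 0 2 =
      t * f.sum fun w r => r • (if w.head? = some i ∧ w.tail.getLast? = some j then
        t ^ mid n w else 0) := by
  have hxz : (my : Matrix (Fin 3) (Fin 3) R) * mz 0 t 0 = t • my := by
    rw [my, mz]
    ext a b
    fin_cases a <;> fin_cases b <;> simp [Matrix.mul_apply, Fin.sum_univ_succ]
  have hz : ∀ A : Matrix (Fin 3) (Fin 3) R, (A * mz 0 t 0) 0 2 = 0 := by
    intro A
    rw [mz]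
    simp [Matrix.mul_apply, Fin.sum_univ_succ]
  have e1 := GG_val t 1 t f i j n hn
  have e2 := GG_val 0 1 t f i j n hn
  have e3 := GG_val t 0 t f i j n hn
  have e4 := GG_val (R := R) 0 0 t f i j n hn
  rw [one_smul] at e1 e2
  rw [zero_smul] at e2 e3 e4
  rw [zero_smul] at e4
  unfold gg
  rw [hxz, Matrix.sub_apply, hz, Matrix.add_apply, Matrix.sub_apply, Matrix.sub_apply, e1, e2, e3,
    e4]
  ring

end

end Pool.Agent.TH142.RF
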