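import Pool.Agent.TH142.RF.GC

set_option autoImplicit false

namespace Pool.Agent.TH142.RF

open Pool.Agent.TH37.RF

theorem digits_unique (R : ℕ) : ∀ (N : ℕ) (m m' : ℕ → ℕ), (∀ k, m k < R) → (∀ k, m' k < R) →
    ∑ k ∈ Finset.range N, m k * R ^ k = ∑ k ∈ Finset.range N, m' k * R ^ k →
    ∀ k < N, m k = m' k := by
  intro N
  induction N with
  | zero => intro m m' _ _ _ k hk; omega
  | succ N ih =>
    intro m m' hm hm' h k hk
    rw [Finset.sum_range_succ', Finset.sum_range_succ'] at h
    simp only [pow_zero, mul_one] at h
    have e1 : ∀ m : ℕ → ℕ, ∑ k ∈ Finset.range N, m (k + 1) * R ^ (k + 1) =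
        R * ∑ k ∈ Finset.range N, m (k + 1) * R ^ k := by
      intro m
      rw [Finset.mul_sum]
      refine Finset.sum_congr rfl fun k _ => ?_
      rw [pow_succ]
      ring
    rw [e1 m, e1 m'] at h
    have h0 : m 0 = m' 0 := by
      have := congrArg (· % R) h
      simp only [Nat.mul_add_mod] at this
      rwa [Nat.mod_eq_of_lt (hm 0), Nat.mod_eq_of_lt (hm' 0)] at this
    have hR : 0 < R := lt_of_le_of_lt (Nat.zero_le _) (hm 0)
    have h1 : ∑ k ∈ Finset.range N, m (k + 1) * R ^ k =
        ∑ k ∈ Finset.range N, m' (k + 1) * R ^ k := by
      rw [h0] at h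
      exact Nat.eq_of_mul_eq_mul_left hR (Nat.add_right_cancel h)
    cases k with
    | zero => exact h0
    | succ k =>
      exact ih (fun k => m (k + 1)) (fun k => m' (k + 1)) (fun k => hm _)
        (fun k => hm' _) h1 k (by omega)

theorem sum_pow_count (R N : ℕ) (w : List ℕ) (hN : ∀ l ∈ w, l < N) :
    (w.map (R ^ ·)).sum = ∑ k ∈ Finset.range N, w.count k * R ^ k := by
  rw [Finset.sum_list_map_count]
  rw [Finset.sum_subset (s₂ := Finset.range N)]
  · simp
  · intro l hl
    exact Finset.mem_range.mpr (hN l (List.mem_toFinset.mp hl))
  · intro l _ hl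
    rw [List.count_eq_zero.mpr (fun h => hl (List.mem_toFinset.mpr h))]
    simp

theorem perm_of_sum (R : ℕ) (w w' : List ℕ) (hw : w.length < R) (hw' : w'.length < R)
    (h : (w.map (R ^ ·)).sum = (w'.map (R ^ ·)).sum) : w.Perm w' := by
  rw [List.perm_iff_count]
  intro a
  set N := (w ++ w').sum + a + 1 with hN
  have h1 : ∀ l ∈ w, l < N := by
    intro l hl
    have := List.le_sum_of_mem (List.mem_append_left w' hl)
    omega
  have h2 : ∀ l ∈ w', l < N := by
    intro l hl
    have := List.le_sum_of_mem (List.mem_append_right w hl)
    omega
  rw [sum_pow_count R N w h1, sum_pow_count R N w' h2] at h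
  exact digits_unique R N (fun k => w.count k) (fun k => w'.count k)
    (fun k => lt_of_le_of_lt List.count_le_length hw)
    (fun k => lt_of_le_of_lt List.count_le_length hw') h a (by omega)

theorem last_eq (i j : ℕ) (m : List ℕ) : (i :: (m ++ [j])).getLast? = some j := by
  rw [← List.cons_append, List.getLast?_append]; rfl

theorem decomp (i j : ℕ) (w : List ℕ) (h1 : w.head? = some i) (h2 : w.tail.getLast? = some j) :
    w = i :: (w.tail.dropLast ++ [j]) := by
  cases w with
  | nil => simp at h1
  | cons a w =>
    simp only [List.head?_cons, Option.some.injEq] at h1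
    simp only [List.tail_cons] at h2 ⊢
    rw [h1]
    congr 1
    have hne : w ≠ [] := by
      rintro rfl
      simp at h2
    rw [List.getLast?_eq_some_getLast hne] at h2
    have h3 := Option.some.inj h2
    rw [← h3]
    exact (List.dropLast_append_getLast hne).symm

theorem sameType_iff (R i j : ℕ) (m w : List ℕ) (hm : m.length < R) (hw : w.length < R) :
    ((w.head? = some i ∧ w.tail.getLast? = some j) ∧ mid (R ^ ·) w = mid (R ^ ·)
      (i :: (m ++ [j]))) ↔ SameType (i :: (m ++ [j])) w := by
  have hmid : mid (R ^ ·) (i :: (m ++ [j])) = (m.map (R ^ ·)).sum := by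
    unfold mid
    simp
  rw [hmid]
  constructor
  · rintro ⟨⟨h1, h2⟩, h3⟩
    have hd := decomp i j w h1 h2
    have hlen : w.tail.dropLast.length < R := by
      rw [List.length_dropLast, List.length_tail]
      omega
    have hp : w.tail.dropLast.Perm m := perm_of_sum R _ _ hlen hm h3
    refine ⟨?_, ?_, ?_⟩
    · rw [h1]; rfl
    · rw [hd, last_eq, last_eq]
    · rw [hd]
      exact List.Perm.cons _ (hp.symm.append_right _)
  · rintro ⟨h1, h2, h3⟩
    have h1' : w.head? = some i := by rw [← h1]; rfl
    have hlen := h3.length_eq
    have h2' : w.tail.getLast? = some j := by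
      cases w with
      | nil => simp at hlen
      | cons a w =>
        cases w with
        | nil => simp at hlen
        | cons b w =>
          rw [List.getLast?_cons_cons] at h2
          rw [List.tail_cons, ← h2, last_eq]
    refine ⟨⟨h1', h2'⟩, ?_⟩
    have hd := decomp i j w h1' h2'
    rw [hd] at h3
    have h4 : (m ++ [j]).Perm (w.tail.dropLast ++ [j]) := List.Perm.cons_inv h3
    have h5 : m.Perm w.tail.dropLast := (List.perm_append_right_iff _).mp h4
    unfold mid
    exact (h5.map _).sum_eq.symm

theorem finsum_type {F : Type} [Field F] (f : List ℕ →₀ F) (P : List ℕ → Prop)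
    [DecidablePred P] :
    (∑ᶠ (w' : List ℕ) (_ : P w'), f w') = ∑ w ∈ f.support, if P w then f w else 0 := by
  classical
  have h1 : ∀ w', (∑ᶠ (_ : P w'), f w') = if P w' then f w' else 0 := by
    intro w'
    exact finsum_eq_if
  rw [finsum_congr h1]
  apply finsum_eq_sum_of_support_subset
  intro w hw
  rw [Function.mem_support] at hw
  rw [Finset.mem_coe, Finsupp.mem_support_iff]
  intro h
  apply hw
  rw [h]
  simp

/-- JOB GSTAR -/
theorem gstar {F : Type} [Field F] (f : List ℕ →₀ F) (hf : ¬ TrivialId f) :
    ∃ c : List (Fin 3) →₀ F, Cond c ∧ ∀ (C : Type) [Ring C] [Algebra F C] (B : TwoSidedIdeal C),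
      (∀ a : ℕ → C, (∀ i, a i ∈ B) →
        (f.sum fun w r => if w = [] then 0 else r • (w.map a).prod) = 0) →
      ∀ x ∈ B, ∀ y ∈ B, ∀ z ∈ B, ev3 c x y z = 0 := by
  classical
  unfold TrivialId at hf
  push Not at hf
  obtain ⟨w0, hw0, hs⟩ := hf
  rw [finsum_type] at hs
  cases w0 with
  | nil => exact absurd rfl hw0
  | cons i w0 =>
    rcases List.eq_nil_or_concat w0 with rfl | ⟨m, j, rfl⟩
    · -- one letter
      clear hw0
      have hst : ∀ w, SameType [i] w ↔ w = [i] := by
        intro w
        constructor
        · intro h
          exact (List.perm_singleton.mp h.2.2.symm)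
        · rintro rfl
          exact ⟨rfl, rfl, List.Perm.refl _⟩
      have hfi : f [i] ≠ 0 := by
        intro h
        apply hs
        refine Finset.sum_eq_zero fun w _ => ?_
        rw [hst]
        split_ifs with h1
        · rw [h1, h]
        · rfl
      let T : List ℕ → F → (List (Fin 3) →₀ F) := fun w r =>
        if w ≠ [] ∧ (∀ l ∈ w, l = i) then
          Finsupp.single (0 :: (List.replicate w.length 2 ++ [1])) r else 0
      have hform : ∀ u, (f.sum T) u ≠ 0 → ∃ n, u = 0 :: (List.replicate n 2 ++ [1]) := by
        intro u hu
        by_contra hcon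
        push Not at hcon
        apply hu
        rw [Finsupp.sum, Finsupp.finsetSum_apply]
        refine Finset.sum_eq_zero fun w _ => ?_
        simp only [T]
        split_ifs
        · rw [Finsupp.single_apply, if_neg]
          exact fun h => hcon _ h.symm
        · rfl
      refine ⟨f.sum T, ⟨?_, ?_, ?_⟩, ?_⟩
      · intro w hw
        obtain ⟨n, rfl⟩ := hform w (Finsupp.mem_support_iff.mp hw)
        simp
      · intro w hw _ _
        obtain ⟨n, rfl⟩ := hform w (Finsupp.mem_support_iff.mp hw)
        exact ⟨0, n, 0, rfl⟩
      · refine ⟨1, ?_⟩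
        rw [Finsupp.sum, Finsupp.finsetSum_apply, Finset.sum_eq_single [i]]
        · simp [T, hfi]
        · intro w _ hw
          simp only [T]
          split_ifs with h1
          · rw [Finsupp.single_apply, if_neg]
            intro h2
            apply hw
            have h3 := congrArg List.length h2
            simp only [List.length_cons, List.length_append, List.length_replicate] at h3
            have h4 : w.length = 1 := by simpa using h3
            obtain ⟨a, rfl⟩ := List.length_eq_one_iff.mp h4
            rw [h1.2 a (by simp)]
          · rfl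
        · intro h
          exact absurd (Finsupp.notMem_support_iff.mp h) hfi
      · intro C _ _ B hB x hx y hy z hz
        have h1 := hB (fun l => if l = i then z else 0) (by
          intro l
          split_ifs
          · exact hz
          · exact B.zero_mem)
        have h2 : ev3 (f.sum T) x y z = x * (f.sum fun w r => if w = [] then 0 else
            r • (w.map fun l => if l = i then z else 0).prod) * y := by
          rw [Finsupp.sum, Finsupp.sum, Finset.mul_sum, Finset.sum_mul]
          unfold ev3
          rw [← Finsupp.sum_finsetSum_index (by simp) (by intro a b c; simp [add_smul])]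
          refine Finset.sum_congr rfl fun w _ => ?_
          simp only [T]
          by_cases hw : w = []
          · simp [hw]
          · rw [if_neg hw]
            by_cases hi : ∀ l ∈ w, l = i
            · rw [if_pos ⟨hw, hi⟩, Finsupp.sum_single_index (by simp)]
              have h3 : (w.map fun l => if l = i then z else 0) = List.replicate w.length z := by
                rw [List.eq_replicate_iff]
                refine ⟨by simp, ?_⟩
                intro b hb
                obtain ⟨l, hl, rfl⟩ := List.mem_map.mp hb
                rw [if_pos (hi l hl)]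
              rw [h3, List.prod_replicate, mul_smul_comm, smul_mul_assoc]
              congr 1
              simp [mul_assoc]
            · rw [if_neg (fun h => hi h.2)]
              have h3 : (w.map fun l => if l = i then z else 0).prod = 0 := by
                apply List.prod_eq_zero
                push Not at hi
                obtain ⟨l, hl, hli⟩ := hi
                rw [List.mem_map]
                exact ⟨l, hl, by rw [if_neg hli]⟩
              rw [h3]
              simp
        rw [h2, h1]
        simp
    · -- at least two letters
      rw [List.concat_eq_append] at hs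
      set R : ℕ := (f.support.sup List.length) + m.length + 2 with hR
      have hmR : m.length < R := by omega
      have hwR : ∀ w ∈ f.support, w.length < R := by
        intro w hw
        have := Finset.le_sup (f := List.length) hw
        omega
      have hn : ∀ l, 1 ≤ (fun l => R ^ l) l := fun l => Nat.one_le_pow _ _ (by omega)
      refine ⟨cc F f i j (fun l => R ^ l), ⟨cc_two _ _ _ _, cc_lin _ _ _ _, ?_⟩, ?_⟩
      · apply piv_of (Polynomial.X : Polynomial F)
        rw [ev3_cc, gg_val _ _ _ _ _ hn]
        intro h
        apply hs
        have h1 := (mul_eq_zero.mp h).resolve_left Polynomial.X_ne_zero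
        have h2 := congrArg (fun p => Polynomial.coeff p (mid (R ^ ·) (i :: (m ++ [j])))) h1
        simp only [Polynomial.coeff_zero] at h2
        rw [Finsupp.sum, Polynomial.finsetSum_coeff] at h2
        refine Eq.trans ?_ h2
        refine Finset.sum_congr rfl fun w hw => ?_
        rw [Polynomial.coeff_smul]
        have h3 := sameType_iff R i j m w hmR (hwR w hw)
        by_cases hst : SameType (i :: (m ++ [j])) w
        · rw [if_pos hst]
          obtain ⟨h4, h5⟩ := h3.mpr hst
          rw [if_pos h4, ← h5, Polynomial.coeff_X_pow, if_pos rfl]
          simp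
        · rw [if_neg hst]
          by_cases h4 : w.head? = some i ∧ w.tail.getLast? = some j
          · rw [if_pos h4, Polynomial.coeff_X_pow, if_neg, smul_zero]
            intro h5
            exact hst (h3.mp ⟨h4, h5.symm⟩)
          · rw [if_neg h4]
            simp
      · intro C _ _ B hB x hx y hy z hz
        rw [ev3_cc]
        exact gg_mem f i j _ hn B hB x y z hx hy hz

end Pool.Agent.TH142.RF
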