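import Pool.Agent.TH37.RF.Defs

set_option autoImplicit false

namespace Pool.Agent.TH142.RF

open Pool.Agent.TH37.RF

theorem wd_append {C Λ : Type} [Ring C] (v : Λ → C) (a b : List Λ) :
    wd v (a ++ b) = wd v a * wd v b := by
  simp [wd]

theorem wd_flatten {C Λ : Type} [Ring C] (v : Λ → C) (a : List (List Λ)) :
    wd v a.flatten = (a.map (wd v)).prod := by
  induction a with
  | nil => simp [wd]
  | cons x l ih => rw [List.flatten_cons, wd_append, ih]; simp

theorem lex_right {Λ : Type} [LinearOrder Λ] (b b' : List Λ) : ∀ p q : List Λ,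
    p.length = q.length → List.Lex (· < ·) p q → List.Lex (· < ·) (p ++ b) (q ++ b') := by
  intro p
  induction p with
  | nil =>
    intro q h1 h2
    cases q with
    | nil => cases h2
    | cons x q => simp at h1
  | cons y p ih =>
    intro q h1 h2
    cases q with
    | nil => simp at h1
    | cons x q =>
      cases h2 with
      | rel h => exact List.Lex.rel h
      | cons h => exact List.Lex.cons (ih q (by simpa using h1) h)

theorem lex_left {Λ : Type} [LinearOrder Λ] (a p q : List Λ)
    (h : List.Lex (· < ·) p q) : List.Lex (· < ·) (a ++ p) (a ++ q) := by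
  induction a with
  | nil => exact h
  | cons x a ih => exact List.Lex.cons ih

theorem lex_mid {Λ : Type} [LinearOrder Λ] (a b p q : List Λ) (hl : p.length = q.length)
    (h : List.Lex (· < ·) p q) : a ++ p ++ b < a ++ q ++ b := by
  have := lex_left a _ _ (lex_right b b p q hl h)
  rw [List.append_assoc, List.append_assoc]
  exact this

/-- JOB SH2 -/
theorem marked_nilp
    (hcomb : ∀ (Λ : Type) [Finite Λ] [LinearOrder Λ] (mark : Λ → Bool) (d K : ℕ),
      ∃ M : ℕ, ∀ l : List Λ, M ≤ l.countP mark →
        (∃ a u b : List Λ, l = a ++ (List.replicate K u).flatten ++ b ∧ u.length ≤ d ∧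
          ∃ x ∈ u, mark x = true) ∨
        (∃ (a : List Λ) (w : Fin d → List Λ) (b : List Λ), l = a ++ (List.ofFn w).flatten ++ b ∧
          (∀ i, w i ≠ []) ∧ ∀ π : Equiv.Perm (Fin d), π ≠ 1 →
            List.Lex (· < ·) ((List.ofFn fun k => w (π k)).flatten) ((List.ofFn w).flatten)))
    {F C : Type} [Field F] [Ring C] [Algebra F C] (Λ : Type) [Finite Λ]
    (v : Λ → C) (mark : Λ → Bool) (d : ℕ) (c : Equiv.Perm (Fin d) → F) (hc : c 1 = 1)
    (hid : ∀ w : Fin d → List Λ, (∀ i, w i ≠ []) →
      ∑ π, c π • (List.ofFn fun k => wd v (w (π k))).prod = 0)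
    (hnil : ∀ w : List Λ, (∃ x ∈ w, mark x = true) → IsNilpotent (wd v w)) :
    ∃ M : ℕ, ∀ l : List Λ, M ≤ l.countP mark → wd v l = 0 := by
  classical
  obtain ⟨n, ⟨e⟩⟩ := Finite.exists_equiv_fin Λ
  let _ : LinearOrder Λ := LinearOrder.lift' e e.injective
  -- common nilpotency exponent
  have hfin : {u : List Λ | u.length ≤ d}.Finite := List.finite_length_le Λ d
  have hK : ∃ K : ℕ, ∀ u : List Λ, u.length ≤ d → (∃ x ∈ u, mark x = true) →
      (wd v u) ^ K = 0 := by
    have h1 : ∀ u : List Λ, ∃ k : ℕ, (∃ x ∈ u, mark x = true) → (wd v u) ^ k = 0 := by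
      intro u
      by_cases hu : ∃ x ∈ u, mark x = true
      · obtain ⟨k, hk⟩ := hnil u hu
        exact ⟨k, fun _ => hk⟩
      · exact ⟨0, fun h => absurd h hu⟩
    choose k hk using h1
    refine ⟨hfin.toFinset.sup k, fun u hu hm => ?_⟩
    have hle : k u ≤ hfin.toFinset.sup k := Finset.le_sup (f := k) (by simpa using hu)
    exact pow_eq_zero_of_le hle (hk u hm)
  obtain ⟨K, hK⟩ := hK
  obtain ⟨M, hM⟩ := hcomb Λ mark d K
  refine ⟨M, ?_⟩
  have key : ∀ (n : ℕ) (l : List Λ), l.length = n → M ≤ l.countP mark → wd v l = 0 := by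
    intro n
    by_contra hcon
    push Not at hcon
    have hfinn : {l : List Λ | l.length = n ∧ M ≤ l.countP mark ∧ wd v l ≠ 0}.Finite :=
      (List.finite_length_eq Λ n).subset (fun l hl => hl.1)
    have hne : {l : List Λ | l.length = n ∧ M ≤ l.countP mark ∧ wd v l ≠ 0}.Nonempty := by
      obtain ⟨l, h1, h2, h3⟩ := hcon
      exact ⟨l, h1, h2, h3⟩
    obtain ⟨l, hl⟩ := hfinn.exists_minimal hne
    obtain ⟨⟨hl1, hl2, hl3⟩, hlmin⟩ := hl
    apply hl3
    rcases hM l hl2 with ⟨a, u, b, h1, h2, h3⟩ | ⟨a, w, b, h1, h2, h3⟩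
    · rw [h1, wd_append, wd_append, wd_flatten, List.map_replicate, List.prod_replicate,
        hK u h2 h3]
      simp
    · have e1 : ∀ π : Equiv.Perm (Fin d), (List.ofFn fun k => wd v (w (π k))).prod =
          wd v (List.ofFn fun k => w (π k)).flatten := by
        intro π
        rw [wd_flatten, List.map_ofFn]
        rfl
      have e2 : ∀ π : Equiv.Perm (Fin d), π ≠ 1 →
          wd v (a ++ (List.ofFn fun k => w (π k)).flatten ++ b) = 0 := by
        intro π hπ
        by_contra hne
        have hperm : (List.ofFn fun k => w (π k)).flatten.Perm (List.ofFn w).flatten := by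
          apply List.Perm.flatten
          exact Equiv.Perm.ofFn_comp_perm π w
        have hlt := h3 π hπ
        have hlen : (a ++ (List.ofFn fun k => w (π k)).flatten ++ b).length = n := by
          rw [← hl1, h1]
          simp only [List.length_append, hperm.length_eq]
        have hcnt : M ≤ (a ++ (List.ofFn fun k => w (π k)).flatten ++ b).countP mark := by
          refine hl2.trans (le_of_eq ?_)
          rw [h1]
          simp only [List.countP_append, hperm.countP_eq]
        have hle := hlmin (y := a ++ (List.ofFn fun k => w (π k)).flatten ++ b) ⟨hlen, hcnt, hne⟩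
        have hlt2 : a ++ (List.ofFn fun k => w (π k)).flatten ++ b < l := by
          rw [h1]
          exact lex_mid a b _ _ hperm.length_eq hlt
        exact absurd (hle hlt2.le) (not_le.mpr hlt2)
      have e3 := hid w h2
      rw [← Finset.add_sum_erase _ _ (Finset.mem_univ (1 : Equiv.Perm (Fin d))), hc, one_smul] at e3
      have e4 : wd v l = wd v a * (List.ofFn fun k => wd v (w ((1 : Equiv.Perm (Fin d)) k))).prod
          * wd v b := by
        rw [e1, ← wd_append, ← wd_append, h1]
        rfl
      have e5 : (List.ofFn fun k => wd v (w ((1 : Equiv.Perm (Fin d)) k))).prod =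
          - ∑ x ∈ Finset.univ.erase (1 : Equiv.Perm (Fin d)),
            c x • (List.ofFn fun k => wd v (w (x k))).prod := by
        rw [eq_neg_iff_add_eq_zero]
        exact e3
      rw [e4, e5, mul_neg, neg_mul, Finset.mul_sum, Finset.sum_mul, neg_eq_zero]
      apply Finset.sum_eq_zero
      intro π hπ
      have hπ1 : π ≠ 1 := (Finset.mem_erase.mp hπ).1
      rw [mul_smul_comm, smul_mul_assoc, e1, ← wd_append, ← wd_append, e2 π hπ1, smul_zero]
  intro l hl
  exact key l.length l rfl hl

end Pool.Agent.TH142.RF
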